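import Pool.Agent.Helper63.EQ.Defs
import Pool.Agent.Helper95.EQ.K
import Pool.Agent.Helper99.MS.Contra

/-! Project EQ (edge weights, quantitative), block L: the lower bound at the origin. -/

set_option autoImplicit false

namespace Pool.Agent.Helper56.EQ

open MeasureTheory Set Filter Topology
open Pool.Agent.Helper95.EW (Ac Dl Nr)
open Pool.Agent.Helper71.MR (gt gt_cont gt_nonneg gt_zero gt_integrable gt_int_pos)
open Pool.Agent.Helper63.EW (ha ma AA S)
open Pool.Agent.Helper63.EQ (nu kw phi Tr Tc Zn Adm)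
open Pool.Agent.Helper99.MS (ell ff mr GB gg KL cv be g1 EE al ZL CS CE CI cC2 XX ww XX_le_sq XX_ge_sq EE_pos g1_int g1_tail ell_le_linear
  ff_zero ff_small ww_int ww_Iic tail_Iic ell_nonneg ell_al_tot ff_meas al_cont)

variable {w : ℝ → ℝ} {Cw B : ℝ}

theorem XX_le_32 {a : ℝ} (h1 : -2 ≤ a) (h2 : a ≤ -(49 / 100)) : XX a ≤ -(1 / 32) := by
  rcases le_total (-1) a with h | h
  · have h3 := XX_le_sq (t := a) (abs_le.2 ⟨h, by linarith⟩)
    nlinarith
  · unfold XX
    have h3 : Real.exp (-2) ≤ Real.exp a := Real.exp_le_exp.2 h1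
    have h4 : (1 : ℝ) / 32 ≤ Real.exp (-2) := by
      rw [Real.exp_neg, one_div]
      apply inv_anti₀ (Real.exp_pos _)
      have h5 : Real.exp 2 = Real.exp 1 ^ 2 := by rw [← Real.exp_nat_mul]; norm_num
      rw [h5]
      have := Real.exp_one_lt_d9
      nlinarith [Real.exp_pos (1 : ℝ)]
    linarith

/-- the lower bound of `g1` near the origin -/
theorem g1_ge' (hB : GB (ff mr) B) {m : ℝ} (hm : 8 ≤ m) {v : ℝ} (h1 : -1 ≤ v) (h2 : v ≤ 1 / 5) :
    Real.exp (-(v / 2)) * EE m v - (2 * Real.exp (-(m / 32)) + 16 * B * Real.exp (-((m - 4) / 32))) ≤ g1 m v := by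
  have hB0 := hB.nonneg
  have hl2a := Real.log_two_gt_d9
  have hl2b := Real.log_two_lt_d9
  set a := v - Real.log 2 with ha
  have ha1 : a ≤ -(49 / 100) := by rw [ha]; linarith
  have ha2 : -2 ≤ a := by rw [ha]; linarith
  have hi := g1_int hB hm v
  have hXa : XX a ≤ -(1 / 32) := XX_le_32 ha2 ha1
  have hE1 : EE m a ≤ Real.exp (-(m / 32)) := by
    unfold EE
    apply Real.exp_le_exp.2
    nlinarith
  have hE2 : EE (m - 4) a ≤ Real.exp (-((m - 4) / 32)) := by
    unfold EE
    apply Real.exp_le_exp.2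
    nlinarith
  have hs1 : g1 m v = (∫ t in Set.Iic v, ff mr (v - t) * al m t) + ∫ t in Set.Ioi v, ff mr (v - t) * al m t := by
    unfold g1
    exact (intervalIntegral.integral_Iic_add_Ioi hi.integrableOn hi.integrableOn).symm
  have hs2 : ∫ t in Set.Ioi v, ff mr (v - t) * al m t = 0 := by
    rw [← integral_zero ℝ ℝ (μ := volume.restrict (Set.Ioi v))]
    apply setIntegral_congr_fun measurableSet_Ioi
    intro t ht
    have ht' : v < t := ht
    simp only
    rw [ff_zero _ (by linarith), zero_mul]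
  have hs3 : ∫ t in Set.Iic v, ff mr (v - t) * al m t =
      (∫ t in Set.Iic a, ff mr (v - t) * al m t) + ∫ t in Set.Ioc a v, ff mr (v - t) * al m t := by
    rw [← setIntegral_union (Set.Iic_disjoint_Ioc le_rfl) measurableSet_Ioc hi.integrableOn hi.integrableOn,
      Set.Iic_union_Ioc_eq_Iic (by rw [ha]; linarith)]
  have hs4 : ∫ t in Set.Ioc a v, ff mr (v - t) * al m t = Real.exp (-(v / 2)) * (EE m v - EE m a) := by
    have h5 : ∀ t ∈ Set.Ioc a v, ff mr (v - t) * al m t = Real.exp (-(v / 2)) * ww m t := by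
      intro t ht
      rw [ff_small (by linarith [ht.2]) (by rw [ha] at ht; linarith [ht.1])]
      unfold al
      rw [← mul_assoc, ← Real.exp_add]
      congr 2
      ring
    rw [setIntegral_congr_fun measurableSet_Ioc h5, integral_const_mul]
    congr 1
    have h6 : ∫ t in Set.Iic v, ww m t = (∫ t in Set.Iic a, ww m t) + ∫ t in Set.Ioc a v, ww m t := by
      have hw := ww_int (p := m) (by linarith)
      rw [← setIntegral_union (Set.Iic_disjoint_Ioc le_rfl) measurableSet_Ioc hw.integrableOn hw.integrableOn,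
        Set.Iic_union_Ioc_eq_Iic (by rw [ha]; linarith)]
    rw [ww_Iic (by linarith), ww_Iic (by linarith)] at h6
    linarith
  have hs5 : |∫ t in Set.Iic a, ff mr (v - t) * al m t| ≤ 16 * B * Real.exp (-((m - 4) / 32)) := by
    refine (g1_tail hB hm v _).trans ?_
    have h7 := tail_Iic hm (a := a) (by linarith)
    have h8 : ell v ≤ 2 := by
      have := ell_le_linear v
      have h9 : |v| ≤ 1 := abs_le.2 ⟨h1, by linarith⟩
      linarith
    calc B * ell v * ∫ t in Set.Iic a, ell t * |al m t|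
        ≤ (B * 2) * (8 * Real.exp (-((m - 4) / 32))) := by
          apply mul_le_mul _ (h7.trans (by linarith)) _ (by positivity)
          · exact mul_le_mul_of_nonneg_left h8 hB0
          · apply integral_nonneg
            intro t
            exact mul_nonneg (ell_nonneg t) (abs_nonneg _)
      _ = _ := by ring
  have hs6 := (abs_le.1 hs5).1
  have hE4 : Real.exp (-(v / 2)) ≤ 2 := by
    have h6 : Real.exp (-(v / 2)) ≤ Real.exp (1/2) := Real.exp_le_exp.2 (by linarith)
    have h7 : Real.exp (1/2) ≤ 2 := by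
      have h8 : Real.exp (1/2) ^ 2 = Real.exp 1 := by
        rw [← Real.exp_nat_mul]; norm_num
      have he := Real.exp_one_lt_d9
      nlinarith [Real.exp_pos (1/2 : ℝ)]
    linarith
  have hE5 : Real.exp (-(v / 2)) * EE m a ≤ 2 * Real.exp (-(m / 32)) :=
    mul_le_mul hE4 hE1 (EE_pos m a).le (by norm_num)
  rw [hs1, hs2, hs3, hs4]
  linarith [mul_sub (Real.exp (-(v / 2))) (EE m v) (EE m a)]

/-- L1 -/
theorem g1_ge (hB : GB (ff mr) B) {m : ℝ} (hm : 8 ≤ m) {v : ℝ} (h1 : -1 ≤ v) (h2 : v ≤ 1 / 5) :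
    -(2 * Real.exp (-(m / 32)) + 16 * B * Real.exp (-((m - 4) / 32))) ≤ g1 m v := by
  have h := g1_ge' hB hm h1 h2
  have h3 : 0 ≤ Real.exp (-(v / 2)) * EE m v := mul_nonneg (Real.exp_pos _).le (EE_pos m v).le
  linarith

theorem g1_meas (m : ℝ) : Measurable (g1 m) := by
  have h : StronglyMeasurable (fun p : ℝ × ℝ => ff mr (p.1 - p.2) * al m p.2) := by
    apply Measurable.stronglyMeasurable
    apply Measurable.mul
    · exact (ff_meas mr).comp (measurable_fst.sub measurable_snd)
    · exact (al_cont m).measurable.comp measurable_snd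
  exact (h.integral_prod_right (ν := volume)).measurable

theorem g1_abs (hB : GB (ff mr) B) {m : ℝ} (hm : 8 ≤ m) (v : ℝ) : |g1 m v| ≤ 16 * B * ell v := by
  have h := g1_tail hB hm v Set.univ
  simp only [Measure.restrict_univ] at h
  have h2 := ell_al_tot hm
  have h3 : 0 ≤ B * ell v := mul_nonneg hB.nonneg (ell_nonneg v)
  unfold g1
  nlinarith

theorem g1_abs3 (hB : GB (ff mr) B) {m : ℝ} (hm : 8 ≤ m) {V : ℝ} (h1 : -(2 / 5) ≤ V) (h2 : V ≤ 1 / 10) :
    ∀ y ∈ Icc (V - 1) (V + 1), |g1 m y| ≤ 48 * B := by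
  intro y hy
  have h := g1_abs hB hm y
  have h3 := ell_le_linear y
  have h4 : |y| ≤ 2 := abs_le.2 ⟨by linarith [hy.1], by linarith [hy.2]⟩
  have hB0 := hB.nonneg
  nlinarith

/-- L2 from the facts of the kernel -/
theorem Tr_low_core (hk0 : ∀ r : ℝ, 0 ≤ kw w r) (hks : ∀ r : ℝ, r ≤ 0 ∨ 1 / 2 ≤ r → kw w r = 0) (hki : Integrable (kw w))
    (hnu : ∀ r r' : ℝ, 0 < r → r ≤ r' → nu w r' ≤ nu w r) (hB : GB (ff mr) B) {m : ℝ} (hm : 1000 ≤ m) {V : ℝ}
    (hTr : Tr w (1 / √m) (g1 m) V = ∫ r : ℝ, kw w r * ∫ u : ℝ, gt (1 / √m) u * g1 m (V + u - r))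
    (h1 : -(2 / 5) ≤ V) (h2 : V ≤ 1 / 10) :
    (if 1 / √m ≤ V ∧ V ≤ 3 / √m then (1 / (4 * √m)) * nu w (6 / √m) * (∫ u : ℝ, gt (1 / √m) u) else 0) -
      (∫ r : ℝ, kw w r) * (∫ u : ℝ, gt (1 / √m) u) * (4 * Real.exp (-(m / 32)) + 64 * B * Real.exp (-((m - 4) / 32)))
      ≤ Tr w (1 / √m) (g1 m) V := by
  have hB0 := hB.nonneg
  have hm8 : 8 ≤ m := by linarith
  have hs : 31 ≤ √m := by
    rw [show (31 : ℝ) = √(31 ^ 2) by rw [Real.sqrt_sq (by norm_num)]]
    apply Real.sqrt_le_sqrt
    norm_num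
    linarith
  have hs0 : 0 < √m := by linarith
  set δ : ℝ := 1 / √m with hδd
  have hδ0 : 0 < δ := by positivity
  have hδ1 : δ ≤ 1 / 31 := by
    rw [hδd]
    apply one_div_le_one_div_of_le (by norm_num) hs
  have hmδ : m * δ ^ 2 = 1 := by
    rw [hδd, div_pow, one_pow, Real.sq_sqrt (by linarith)]
    field_simp
  set G : ℝ := ∫ u : ℝ, gt δ u with hG
  have hG0 : 0 < G := gt_int_pos hδ0
  set K : ℝ := ∫ r : ℝ, kw w r with hK
  have hK0 : 0 ≤ K := integral_nonneg hk0
  set E : ℝ := 2 * Real.exp (-(m / 32)) + 16 * B * Real.exp (-((m - 4) / 32)) with hE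
  have hE0 : 0 ≤ E := by
    rw [hE]
    have := Real.exp_pos (-(m / 32))
    have := Real.exp_pos (-((m - 4) / 32))
    positivity
  -- integrability in u
  have hgm := g1_meas m
  have hiu : ∀ r ∈ Ioo (0 : ℝ) (1 / 2), Integrable (fun u : ℝ => gt δ u * g1 m (V + u - r)) := by
    intro r hr
    refine Integrable.mono' ((gt_integrable δ).mul_const (48 * B)) ?_ ?_
    · exact ((gt_cont δ).measurable.mul (hgm.comp (by fun_prop))).aestronglyMeasurable
    · apply Filter.Eventually.of_forall
      intro u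
      rcases le_or_gt u 0 with hu | hu
      · rw [gt_zero (Or.inl hu)]; simp
      rcases le_or_gt δ u with hu2 | hu2
      · rw [gt_zero (Or.inr hu2)]; simp
      rw [Real.norm_eq_abs, abs_mul, abs_of_nonneg (gt_nonneg δ u)]
      apply mul_le_mul_of_nonneg_left _ (gt_nonneg δ u)
      apply g1_abs3 hB hm8 h1 h2
      exact ⟨by linarith [hr.2], by linarith [hr.1]⟩
  -- the inner integral
  have hJ1 : ∀ r ∈ Ioo (0 : ℝ) (1 / 2), -E * G ≤ ∫ u : ℝ, gt δ u * g1 m (V + u - r) := by
    intro r hr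
    rw [hG, ← integral_const_mul]
    apply integral_mono ((gt_integrable δ).const_mul _) (hiu r hr)
    intro u
    simp only
    rcases le_or_gt u 0 with hu | hu
    · rw [gt_zero (Or.inl hu)]; simp
    rcases le_or_gt δ u with hu2 | hu2
    · rw [gt_zero (Or.inr hu2)]; simp
    rw [mul_comm]
    apply mul_le_mul_of_nonneg_left _ (gt_nonneg δ u)
    exact g1_ge hB hm8 (by linarith [hr.2]) (by linarith [hr.1])
  have hJ2 : δ ≤ V → V ≤ 3 * δ → ∀ r ∈ Icc V (V + δ), (Real.exp (r / 2) * (1 / 4) - E) * G ≤ ∫ u : ℝ, gt δ u * g1 m (V + u - r) := by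
    intro hV1 hV2 r hr
    have hr' : r ∈ Ioo (0 : ℝ) (1 / 2) := ⟨by linarith [hr.1], by linarith [hr.2]⟩
    rw [hG, ← integral_const_mul]
    apply integral_mono ((gt_integrable δ).const_mul _) (hiu r hr')
    intro u
    simp only
    rcases le_or_gt u 0 with hu | hu
    · rw [gt_zero (Or.inl hu)]; simp
    rcases le_or_gt δ u with hu2 | hu2
    · rw [gt_zero (Or.inr hu2)]; simp
    rw [mul_comm]
    apply mul_le_mul_of_nonneg_left _ (gt_nonneg δ u)
    have h := g1_ge' hB hm8 (v := V + u - r) (by linarith [hr.2]) (by linarith [hr.1])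
    have hy : |V + u - r| ≤ δ := abs_le.2 ⟨by linarith [hr.2], by linarith [hr.1]⟩
    have hX := XX_ge_sq (t := V + u - r) (by linarith)
    have hX2 : (V + u - r) ^ 2 ≤ δ ^ 2 := by
      rw [← sq_abs]
      exact pow_le_pow_left₀ (abs_nonneg _) hy 2
    have hEE : Real.exp (-1) ≤ EE m (V + u - r) := by
      unfold EE
      apply Real.exp_le_exp.2
      nlinarith
    have hc : Real.exp (r / 2) * (1 / 4) ≤ Real.exp (-((V + u - r) / 2)) * EE m (V + u - r) := by
      have h5 : Real.exp (-((V + u - r) / 2)) * Real.exp (-1) ≤ Real.exp (-((V + u - r) / 2)) * EE m (V + u - r) :=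
        mul_le_mul_of_nonneg_left hEE (Real.exp_pos _).le
      refine le_trans ?_ h5
      rw [← Real.exp_add]
      have h6 : -((V + u - r) / 2) + -1 = r / 2 + (-((V + u) / 2) + -1) := by ring
      rw [h6, Real.exp_add]
      apply mul_le_mul_of_nonneg_left _ (Real.exp_pos _).le
      have h7 : Real.exp (-(5 / 4)) ≤ Real.exp (-((V + u) / 2) + -1) := Real.exp_le_exp.2 (by linarith)
      refine le_trans ?_ h7
      rw [Real.exp_neg, one_div]
      apply inv_anti₀ (Real.exp_pos _)
      have h8 : Real.exp (5 / 4) ^ 4 = Real.exp 1 ^ 5 := by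
        rw [← Real.exp_nat_mul, ← Real.exp_nat_mul]; norm_num
      have h9 : Real.exp 1 ^ 5 ≤ 2.7182818286 ^ 5 := pow_le_pow_left₀ (Real.exp_pos _).le Real.exp_one_lt_d9.le 5
      have h10 : Real.exp (5 / 4) ^ 4 ≤ 4 ^ 4 := by
        rw [h8]
        refine h9.trans (by norm_num)
      exact le_of_pow_le_pow_left₀ (by norm_num) (by norm_num) h10
    linarith
  -- integrability in r
  have hJm : Measurable (fun r : ℝ => ∫ u : ℝ, gt δ u * g1 m (V + u - r)) := by
    have h : StronglyMeasurable (fun p : ℝ × ℝ => gt δ p.2 * g1 m (V + p.2 - p.1)) := by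
      apply Measurable.stronglyMeasurable
      apply Measurable.mul
      · exact (gt_cont δ).measurable.comp measurable_snd
      · exact hgm.comp (by fun_prop)
    exact (h.integral_prod_right (ν := volume)).measurable
  have hJb : ∀ r ∈ Ioo (0 : ℝ) (1 / 2), |∫ u : ℝ, gt δ u * g1 m (V + u - r)| ≤ G * (48 * B) := by
    intro r hr
    rw [hG, ← integral_mul_const, ← Real.norm_eq_abs]
    refine norm_integral_le_of_norm_le ((gt_integrable δ).mul_const (48 * B)) ?_
    apply Filter.Eventually.of_forall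
    intro u
    rcases le_or_gt u 0 with hu | hu
    · rw [gt_zero (Or.inl hu)]; simp
    rcases le_or_gt δ u with hu2 | hu2
    · rw [gt_zero (Or.inr hu2)]; simp
    rw [Real.norm_eq_abs, abs_mul, abs_of_nonneg (gt_nonneg δ u)]
    apply mul_le_mul_of_nonneg_left _ (gt_nonneg δ u)
    apply g1_abs3 hB hm8 h1 h2
    exact ⟨by linarith [hr.2], by linarith [hr.1]⟩
  have hir : Integrable (fun r : ℝ => kw w r * ∫ u : ℝ, gt δ u * g1 m (V + u - r)) := by
    refine Integrable.mono' (hki.mul_const (G * (48 * B))) ?_ ?_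
    · exact hki.aestronglyMeasurable.mul hJm.aestronglyMeasurable
    · apply Filter.Eventually.of_forall
      intro r
      by_cases hr : r ∈ Ioo (0 : ℝ) (1 / 2)
      · rw [Real.norm_eq_abs, abs_mul, abs_of_nonneg (hk0 r)]
        exact mul_le_mul_of_nonneg_left (hJb r hr) (hk0 r)
      · have h0 : kw w r = 0 := by
          apply hks
          by_contra hc
          push Not at hc
          exact hr ⟨hc.1, hc.2⟩
        rw [h0]; simp
  have hEle : K * G * E ≤ K * G * (4 * Real.exp (-(m / 32)) + 64 * B * Real.exp (-((m - 4) / 32))) := by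
    apply mul_le_mul_of_nonneg_left _ (by positivity)
    rw [hE]
    have h3 := Real.exp_pos (-(m / 32))
    have h4 : 0 ≤ B * Real.exp (-((m - 4) / 32)) := mul_nonneg hB0 (Real.exp_pos _).le
    linarith
  rw [hTr]
  split_ifs with hc
  · have hV1 : δ ≤ V := hc.1
    have hV2 : V ≤ 3 * δ := by
      have := hc.2
      rw [hδd]
      linarith [show 3 * (1 / √m) = 3 / √m by ring]
    have h6δ : 6 / √m = 6 * δ := by rw [hδd]; ring
    rw [h6δ]
    set ν : ℝ := nu w (6 * δ) with hν
    have hν0 : 0 ≤ ν := by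
      rw [hν]; unfold nu; exact measureReal_nonneg
    have hlow : ∫ r : ℝ, ((Icc V (V + δ)).indicator (fun _ => ν * (1 / 4) * G) r - kw w r * (E * G)) ≤
        ∫ r : ℝ, kw w r * ∫ u : ℝ, gt δ u * g1 m (V + u - r) := by
      apply integral_mono _ hir
      · intro r
        simp only
        by_cases hr : r ∈ Icc V (V + δ)
        · rw [indicator_of_mem hr]
          have h3 := hJ2 hV1 hV2 r hr
          have hr0 : 0 < r := by linarith [hr.1]
          have h4 : ν ≤ nu w r := hnu r (6 * δ) hr0 (by linarith [hr.2])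
          have h5 : Real.exp (-(r / 2)) * ν ≤ kw w r := by
            unfold kw
            rw [if_pos hr0]
            exact mul_le_mul_of_nonneg_left h4 (Real.exp_pos _).le
          have h6 : ν ≤ kw w r * Real.exp (r / 2) := by
            have h7 := mul_le_mul_of_nonneg_right h5 (Real.exp_pos (r / 2)).le
            have h8 : Real.exp (-(r / 2)) * ν * Real.exp (r / 2) = ν := by
              rw [mul_comm (Real.exp (-(r / 2))) ν, mul_assoc, ← Real.exp_add]
              simp
            rwa [h8] at h7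
          have h7 := mul_le_mul_of_nonneg_left h3 (hk0 r)
          have h8 := mul_le_mul_of_nonneg_right h6 (show 0 ≤ 1 / 4 * G by positivity)
          nlinarith
        · rw [indicator_of_notMem hr]
          by_cases hr2 : r ∈ Ioo (0 : ℝ) (1 / 2)
          · have h3 := mul_le_mul_of_nonneg_left (hJ1 r hr2) (hk0 r)
            nlinarith
          · have h0 : kw w r = 0 := by
              apply hks
              by_contra hc
              push Not at hc
              exact hr2 ⟨hc.1, hc.2⟩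
            rw [h0]; simp
      · apply Integrable.sub
        · rw [integrable_indicator_iff measurableSet_Icc]
          exact integrableOn_const (by simp)
        · exact hki.mul_const _
    have hval : ∫ r : ℝ, ((Icc V (V + δ)).indicator (fun _ => ν * (1 / 4) * G) r - kw w r * (E * G)) =
        δ * (ν * (1 / 4) * G) - K * (E * G) := by
      rw [integral_sub]
      · rw [integral_indicator measurableSet_Icc, setIntegral_const, integral_mul_const]
        simp only [Real.volume_real_Icc, smul_eq_mul]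
        rw [show V + δ - V = δ by ring, max_eq_left hδ0.le]
      · rw [integrable_indicator_iff measurableSet_Icc]
        exact integrableOn_const (by simp)
      · exact hki.mul_const _
    rw [hval] at hlow
    have h9 : 1 / (4 * √m) = δ * (1 / 4) := by rw [hδd]; ring
    rw [h9]
    linarith
  · have hlow : ∫ r : ℝ, -(kw w r * (E * G)) ≤ ∫ r : ℝ, kw w r * ∫ u : ℝ, gt δ u * g1 m (V + u - r) := by
      apply integral_mono (hki.mul_const _).neg hir
      intro r
      show -(kw w r * (E * G)) ≤ kw w r * ∫ u : ℝ, gt δ u * g1 m (V + u - r)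
      by_cases hr2 : r ∈ Ioo (0 : ℝ) (1 / 2)
      · have h3 := mul_le_mul_of_nonneg_left (hJ1 r hr2) (hk0 r)
        nlinarith
      · have h0 : kw w r = 0 := by
          apply hks
          by_contra hc
          push Not at hc
          exact hr2 ⟨hc.1, hc.2⟩
        rw [h0]; simp
    rw [integral_neg, integral_mul_const] at hlow
    linarith

/-- L2 -/
theorem Tr_low (h : Adm w Cw) (hB : GB (ff mr) B) {m : ℝ} (hm : 1000 ≤ m) {V : ℝ} (h1 : -(2 / 5) ≤ V) (h2 : V ≤ 1 / 10) :
    (if 1 / √m ≤ V ∧ V ≤ 3 / √m then (1 / (4 * √m)) * nu w (6 / √m) * (∫ u : ℝ, gt (1 / √m) u) else 0) -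
      (∫ r : ℝ, kw w r) * (∫ u : ℝ, gt (1 / √m) u) * (4 * Real.exp (-(m / 32)) + 64 * B * Real.exp (-((m - 4) / 32)))
      ≤ Tr w (1 / √m) (g1 m) V := by
  have hs : 1 ≤ √m := by
    rw [← Real.sqrt_one]
    exact Real.sqrt_le_sqrt (by linarith)
  have hδ : 1 / √m ≤ 1 := by rw [div_le_one (by linarith)]; exact hs
  exact Tr_low_core (Pool.Agent.Helper95.EQ.kw_nonneg w) (fun r hr => Pool.Agent.Helper95.EQ.kw_supp w hr)
    (Pool.Agent.Helper95.EQ.kw_int h) (fun r r' h3 h4 => Pool.Agent.Helper95.EQ.nu_anti h h3 h4) hB hm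
    (Pool.Agent.Helper95.EQ.Tr_eq h (by positivity) hδ (g1_meas m) (g1_abs3 hB (by linarith) h1 h2)) h1 h2

end Pool.Agent.Helper56.EQ
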